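import Mathlib
import Pool.Agent.TH993.WP.K
import Pool.Agent.TH993.WP.L

/-!
# The largest wired critical percolation cluster of a box

`P d ν` is bond percolation on `ℤ^d` with independent bonds of law `ν` (`true` = open), at an
arbitrary density. The largest wired cluster of the box `B_n` divided by `n ^ (d - 1)` converges in
probability to `a = 2 d ∑ θ_r`, where `θ_r` is the probability that the point `r e_i` is joined to
the hyperplane `x_i = 0` inside the half-space `x_i ≥ 0`; here `a` may be infinite, and it is finite
exactly when the one-arm probabilities have a finite sum.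

Proof: let `N_n` be the number of points of the box joined to its boundary. A union bound over the
`2 d` faces gives `E N_n ≤ a n ^ (d - 1)`. Truncating to bounded depth and to connections inside
balls of a fixed radius gives local events below each face, which are independent when they are far
apart, and Chebyshev's inequality gives `N_n ≥ K n ^ (d - 1)` with high probability for `K < a`.
The two together give the upper tail. A cluster which does not touch the boundary and has `m` points
gives `m ^ 2` connected pairs, and the expected number of connected pairs is `o (n ^ (2 d - 2))` when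
the one-arm probabilities are summable, because a pair at distance `2 r + 1` needs two disjoint arms
of length `r`.
-/

set_option autoImplicit false

open MeasureTheory ProbabilityTheory Filter Topology Set
open scoped ENNReal NNReal

namespace Pool.Agent.Results.MP_65faa7_pr.WiredLawOfLargeNumbers

open Pool.Agent.TH993.WP

/-- `θ_r`: the probability that the point `r e_i` is joined to the hyperplane `x_i = 0` by an open
path inside the half-space `x_i ≥ 0`. -/
noncomputable def theta (d : ℕ) (ν : Measure Bool) (i : Fin d) (r : ℕ) : ℝ≥0∞ :=
  P d ν {ω | ConnTo ω {x : V d | 0 ≤ x i} {x : V d | x i = 0} (Pi.single i (r : ℤ))}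

theorem theta_eq (d : ℕ) (ν : Measure Bool) (i : Fin d) (r : ℕ) :
    theta d ν i r = th ν i false r := by
  simp [theta, th, hs, pl, pt, sg]

/-- The law of large numbers for the largest wired cluster. -/
theorem result (d : ℕ) (hd : 3 ≤ d) (ν : Measure Bool) [IsProbabilityMeasure ν] (i : Fin d) :
    let a : ℝ≥0∞ := 2 * d * ∑' r, theta d ν i r
    2 * (d : ℝ≥0∞) ≤ a ∧ (a ≠ ∞ ↔ ∑' r, arm d ν r ≠ ∞) ∧
    (a ≠ ∞ → TendstoInMeasure (P d ν)
      (fun (n : ℕ) ω => (maxW d n ω : ℝ) / (n : ℝ) ^ (d - 1)) atTop (fun _ => a.toReal)) ∧
    (a = ∞ → ∀ K : ℝ, Tendsto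
      (fun n : ℕ => P d ν {ω | (maxW d n ω : ℝ) ≤ K * (n : ℝ) ^ (d - 1)}) atTop (𝓝 0)) := by
  intro a
  have ha : a = aw d ν := by
    rw [aw_eq ν i]
    simp only [a, theta_eq]
  rw [ha]
  refine ⟨aw_pos ν, ⟨fun h => ne_top_of_le_ne_top h (sum_arm_le ν), fun h => ?_⟩,
    inMeasure hd ν, fun h K => ?_⟩
  · refine ne_top_of_le_ne_top ?_ (aw_le_sum ν)
    exact ENNReal.mul_ne_top (ENNReal.mul_ne_top (by simp) (by simp)) h
  · have h1 := lowerW (by omega : 2 ≤ d) ν (Real.toNNReal K) (by rw [h]; exact ENNReal.coe_lt_top)
    refine tendsto_of_tendsto_of_tendsto_of_le_of_le tendsto_const_nhds h1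
      (fun n => bot_le) (fun n => measure_mono ?_)
    intro ω hω
    rw [mem_ofPred_eq] at hω ⊢
    refine hω.trans ?_
    gcongr
    exact Real.le_coe_toNNReal K

end Pool.Agent.Results.MP_65faa7_pr.WiredLawOfLargeNumbers
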